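import Pool.Agent.W47.TM.Defs

/-!
# TM-IRR: the measure for irreducible polynomials
-/

set_option autoImplicit false

namespace Pool.Agent.W554.TM

open Finset Polynomial Pool.Agent.W47.TM

/-- the auxiliary polynomials with a power of two as the constant -/
theorem aux2 (h : S_AUX) : ∃ a : ℕ, ∀ n N : ℕ, 1 ≤ n → 1 ≤ N → ∀ P : ℤ[X], 1 ≤ P.natDegree →
    P.coeff 0 ≠ 0 → ∃ Q : ℤ[X], ¬ P ∣ Q ∧ Q.natDegree ≤ N ∧
      (∀ i, |(Q.coeff i : ℝ)| ≤ (N.factorial : ℝ) * ((2 : ℝ) ^ a) ^ (n * N)) ∧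
      |aeval Real.pi Q| ≤ ((2 : ℝ) ^ a / N) ^ (n * N) := by
  obtain ⟨C, hC, h⟩ := h
  obtain ⟨a, ha⟩ := pow_unbounded_of_one_lt C (one_lt_two (α := ℝ))
  refine ⟨a, fun n N hn hN P hP hP0 => ?_⟩
  obtain ⟨Q, h1, h2, h3, h4⟩ := h n N hn hN P hP hP0
  have hC0 : 0 ≤ C := by linarith
  refine ⟨Q, h1, h2, fun i => (h3 i).trans ?_, h4.trans ?_⟩
  · exact mul_le_mul_of_nonneg_left (pow_le_pow_left₀ hC0 ha.le _) (by positivity)
  · exact pow_le_pow_left₀ (by positivity) (div_le_div_of_nonneg_right ha.le (by positivity)) _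

theorem const_case {P : ℤ[X]} (hP : Irreducible P) (h0 : P.natDegree = 0) :
    1 ≤ |aeval Real.pi P| := by
  rw [Polynomial.eq_C_of_natDegree_eq_zero h0]
  have h1 : P.coeff 0 ≠ 0 := by
    intro h
    apply hP.ne_zero
    rw [Polynomial.eq_C_of_natDegree_eq_zero h0, h, C_0]
  rw [aeval_C]
  simp only [eq_intCast]
  exact_mod_cast Int.one_le_abs h1

theorem X_case {P : ℤ[X]} (hP : Irreducible P) (h0 : P.coeff 0 = 0) :
    1 ≤ |aeval Real.pi P| := by
  obtain ⟨Q, hQ⟩ := X_dvd_iff.2 h0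
  rcases hP.isUnit_or_isUnit hQ with h | h
  · exact absurd h not_isUnit_X
  · obtain ⟨u, hu, hu2⟩ := Polynomial.isUnit_iff.1 h
    rw [hQ, ← hu2, map_mul, aeval_X, aeval_C, abs_mul, abs_of_pos Real.pi_pos]
    have h3 : |(algebraMap ℤ ℝ) u| = 1 := by
      rcases Int.isUnit_iff.1 hu with h | h <;> rw [h] <;> simp
    rw [h3, mul_one]
    linarith [Real.pi_gt_three]

theorem t9 : S_T9 := by
  intro hA hE
  obtain ⟨a, hA⟩ := aux2 hA
  refine ⟨2 ^ (3 * a + 1), one_le_pow₀ (by norm_num), fun d hd => ?_⟩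
  set N : ℕ := 2 ^ (a * (d + 1) + 1) with hN
  have hN1 : 1 ≤ N := Nat.one_le_two_pow
  obtain ⟨C', hC', hE⟩ := hE d N
  set B : ℝ := 2 * C' * (N.factorial : ℝ) ^ d with hB
  have hf1 : (1 : ℝ) ≤ (N.factorial : ℝ) ^ d := by
    apply one_le_pow₀
    exact_mod_cast Nat.one_le_iff_ne_zero.2 (Nat.factorial_ne_zero N)
  have hB2 : 2 ≤ B := by
    have : 1 ≤ C' * (N.factorial : ℝ) ^ d := one_le_mul_of_one_le_of_one_le hC' hf1
    rw [hB, mul_assoc]
    linarith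
  have hB0 : 0 < B := by linarith
  set M : ℕ := a * N * d with hM
  have hD1 : 1 ≤ B * (2 * B) ^ M :=
    one_le_mul_of_one_le_of_one_le (by linarith) (one_le_pow₀ (by linarith))
  have hD0 : 0 < B * (2 * B) ^ M := by linarith
  refine ⟨1 / (B * (2 * B) ^ M), by positivity, fun P hP hPd H hH hPH => ?_⟩
  have hc1 : 1 / (B * (2 * B) ^ M) ≤ 1 := by
    rw [div_le_one hD0]; exact hD1
  have hexp : ((N + M : ℕ) : ℝ) ≤ ((2 : ℝ) ^ (3 * a + 1)) ^ d := by
    have h1 : N + M ≤ (2 ^ (3 * a + 1)) ^ d := by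
      have e1 : N + M = N * (a * d + 1) := by rw [hM]; ring
      rw [e1, ← pow_mul]
      have h2 : a * d + 1 ≤ 2 ^ (a * d) := Nat.lt_two_pow_self
      calc N * (a * d + 1) ≤ 2 ^ (a * (d + 1) + 1) * 2 ^ (a * d) := Nat.mul_le_mul_left _ h2
        _ = 2 ^ (a * (d + 1) + 1 + a * d) := by rw [← pow_add]
        _ ≤ 2 ^ ((3 * a + 1) * d) := by
          apply Nat.pow_le_pow_right (by norm_num)
          nlinarith
    exact_mod_cast h1
  have hHK : (H : ℝ) ^ (N + M) ≤ H ^ (((2 : ℝ) ^ (3 * a + 1)) ^ d) := by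
    rw [← Real.rpow_natCast]
    exact Real.rpow_le_rpow_of_exponent_le hH hexp
  have hone : (1 : ℝ) ≤ H ^ (((2 : ℝ) ^ (3 * a + 1)) ^ d) :=
    Real.one_le_rpow hH (by positivity)
  by_cases h0 : P.natDegree = 0
  · have h1 := const_case hP h0
    exact hc1.trans (one_le_mul_of_one_le_of_one_le hone h1)
  by_cases h00 : P.coeff 0 = 0
  · have h1 := X_case hP h00
    exact hc1.trans (one_le_mul_of_one_le_of_one_le hone h1)
  -- the choice of `n`
  have hHB : 2 ≤ H * B := by nlinarith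
  obtain ⟨n, hn1, hn2, hn3⟩ : ∃ n : ℕ, 1 ≤ n ∧ H * B ≤ (2 : ℝ) ^ n ∧ (2 : ℝ) ^ n ≤ 2 * (H * B) := by
    have hex : ∃ n : ℕ, H * B ≤ (2 : ℝ) ^ n := by
      obtain ⟨n, hn⟩ := pow_unbounded_of_one_lt (H * B) (one_lt_two (α := ℝ))
      exact ⟨n, hn.le⟩
    classical
    obtain ⟨n, hn, hmin⟩ : ∃ n : ℕ, H * B ≤ (2 : ℝ) ^ n ∧ ∀ m < n, ¬ H * B ≤ (2 : ℝ) ^ m :=
      ⟨Nat.find hex, Nat.find_spec hex, fun m hm => Nat.find_min hex hm⟩
    have hn1 : 1 ≤ n := by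
      by_contra h
      have : n = 0 := by omega
      rw [this, pow_zero] at hn
      linarith
    refine ⟨n, hn1, hn, ?_⟩
    have h1 := hmin (n - 1) (by omega)
    push Not at h1
    obtain ⟨m, rfl⟩ : ∃ m, n = m + 1 := ⟨n - 1, by omega⟩
    rw [Nat.add_sub_cancel] at h1
    rw [pow_succ]
    linarith
  obtain ⟨Q, hQ1, hQ2, hQ3, hQ4⟩ := hA n N hn1 hN1 P (by omega) h00
  set G : ℝ := (N.factorial : ℝ) * ((2 : ℝ) ^ a) ^ (n * N) with hG
  have hG1 : 1 ≤ G := by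
    apply one_le_mul_of_one_le_of_one_le
    · exact_mod_cast Nat.one_le_iff_ne_zero.2 (Nat.factorial_ne_zero N)
    · exact one_le_pow₀ (one_le_pow₀ (by norm_num))
  have hpi : |Real.pi| ≤ 4 := by
    rw [abs_of_pos Real.pi_pos]
    exact Real.pi_le_four
  have key := hE P Q H G Real.pi hP (by omega) hPd hQ1 hQ2 hH hG1 hPH hQ3 hpi
  have hH0 : 0 < H := by linarith
  have hC0 : 0 < C' := by linarith
  have hGd : G ^ d = (N.factorial : ℝ) ^ d * (((2 : ℝ) ^ a) ^ d) ^ (n * N) := by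
    rw [hG, mul_pow, ← pow_mul, ← pow_mul, ← pow_mul, ← pow_mul]
    congr 2
    ring
  have hhalf : ((2 : ℝ) ^ a) ^ d * ((2 : ℝ) ^ a / N) = 1 / 2 := by
    have e : (N : ℝ) = ((2 : ℝ) ^ a) ^ d * (2 : ℝ) ^ a * 2 := by
      rw [hN]
      push_cast
      rw [← pow_mul, ← pow_add, ← pow_succ]
      congr 1
    rw [e]
    field_simp
  have hsmall : C' * H ^ N * G ^ d * |aeval Real.pi Q| ≤ 1 / 2 := by
    calc C' * H ^ N * G ^ d * |aeval Real.pi Q|
        ≤ C' * H ^ N * G ^ d * ((2 : ℝ) ^ a / N) ^ (n * N) :=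
          mul_le_mul_of_nonneg_left hQ4 (by positivity)
      _ = C' * H ^ N * (N.factorial : ℝ) ^ d * (1 / 2) ^ (n * N) := by
          rw [hGd, ← hhalf, mul_pow]
          ring
      _ = (C' * H ^ N * (N.factorial : ℝ) ^ d) / ((2 : ℝ) ^ n) ^ N := by
          rw [one_div, inv_pow, ← pow_mul]
          field_simp
      _ ≤ 1 / 2 := by
          rw [div_le_iff₀ (by positivity)]
          have h1 : (H * B) ^ N ≤ ((2 : ℝ) ^ n) ^ N := pow_le_pow_left₀ (by positivity) hn2 N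
          have h2 : B ≤ B ^ N := le_self_pow₀ (by linarith) (by omega)
          have h3 : H ^ N * B ≤ (H * B) ^ N := by
            rw [mul_pow]
            exact mul_le_mul_of_nonneg_left h2 (by positivity)
          have h4 : H ^ N * B = 2 * (C' * H ^ N * (N.factorial : ℝ) ^ d) := by rw [hB]; ring
          linarith
  have hbig : 1 / 2 ≤ C' * H ^ N * G ^ d * |aeval Real.pi P| := by
    rw [mul_add] at key
    linarith
  have hGd2 : G ^ d ≤ (N.factorial : ℝ) ^ d * ((2 * B) ^ M * H ^ M) := by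
    rw [hGd]
    refine mul_le_mul_of_nonneg_left ?_ (by positivity)
    have e1 : (((2 : ℝ) ^ a) ^ d) ^ (n * N) = ((2 : ℝ) ^ n) ^ M := by
      rw [← pow_mul, ← pow_mul, ← pow_mul, hM]
      congr 1
      ring
    rw [e1, ← mul_pow]
    apply pow_le_pow_left₀ (by positivity)
    linarith
  have hfin : 1 ≤ B * (2 * B) ^ M * (H ^ (N + M) * |aeval Real.pi P|) := by
    have h1 : C' * H ^ N * G ^ d * |aeval Real.pi P| ≤
        C' * H ^ N * ((N.factorial : ℝ) ^ d * ((2 * B) ^ M * H ^ M)) * |aeval Real.pi P| := by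
      refine mul_le_mul_of_nonneg_right ?_ (abs_nonneg _)
      exact mul_le_mul_of_nonneg_left hGd2 (by positivity)
    have h2 : B * (2 * B) ^ M * (H ^ (N + M) * |aeval Real.pi P|) =
        2 * (C' * H ^ N * ((N.factorial : ℝ) ^ d * ((2 * B) ^ M * H ^ M)) * |aeval Real.pi P|) := by
      nth_rewrite 1 [hB]
      rw [pow_add]
      ring
    rw [h2]
    linarith
  rw [div_le_iff₀ hD0]
  calc (1 : ℝ) ≤ B * (2 * B) ^ M * (H ^ (N + M) * |aeval Real.pi P|) := hfin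
    _ ≤ B * (2 * B) ^ M * (H ^ (((2 : ℝ) ^ (3 * a + 1)) ^ d) * |aeval Real.pi P|) :=
        mul_le_mul_of_nonneg_left (mul_le_mul_of_nonneg_right hHK (abs_nonneg _)) hD0.le
    _ = _ := by ring

end Pool.Agent.W554.TM
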